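import Mathlib
import Pool.Agent.R68.Woven.Cyc
import Pool.Agent.R489.Wov.Tree

set_option autoImplicit false

/-!
Classification of the connected woven graphs (MP_85af01_co), helper68 and helper489.
-/

namespace Pool.Agent.Results.MP_85af01_co.Classification

open Pool.Agent.R68.Wov

/-- a connected graph on at most two vertices with an edge (`K_2`) is not woven -/
lemma k2_not_woven {V : Type} [Finite V] (G : SimpleGraph V) (hV : Nat.card V ≤ 2)
    (hE : ∃ x y, G.Adj x y) : ¬ Woven G := by
  rintro ⟨k, hk⟩
  obtain ⟨x, y, hxy⟩ := hE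
  have hall : ∀ z : V, z = x ∨ z = y := by
    intro z
    by_contra hcon
    push Not at hcon
    have h1 : ({z, x, y} : Set V).ncard = 3 := by
      rw [Set.ncard_insert_of_notMem, Set.ncard_pair hxy.ne]
      rintro (h | h)
      · exact hcon.1 h
      · exact hcon.2 h
    have h2 := Set.ncard_le_ncard (Set.subset_univ ({z, x, y} : Set V)) (Set.toFinite _)
    rw [h1, Set.ncard_univ] at h2
    omega
  have hedge : ∀ u v : V, G.Adj u v → s(u, v) = s(x, y) := by
    intro u v huv
    rcases hall u with rfl | rfl <;> rcases hall v with rfl | rfl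
    · exact absurd rfl huv.ne
    · rfl
    · exact Sym2.eq_swap
    · exact absurd rfl huv.ne
  obtain ⟨A, B, hA, hB, -, -, h⟩ := hk V G x y hxy (by
    intro f hf
    exact ⟨x, y, hxy, hedge _ _ (hf.2 x y hxy)⟩)
  obtain ⟨e, he, u, v, huv, hev⟩ := h id ⟨Function.injective_id, fun _ _ h => h⟩
  have h1 : e = s(x, y) := by
    rw [← hev]
    exact hedge u v huv
  rcases he with he | he
  · exact (hA e he).2.1 h1
  · exact (hB e he).2.1 h1

/-- Every finite connected woven graph with at least one edge is a star `K_{1,s}` with `s ≥ 2` or a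
suitable caterpillar. -/
theorem result (V : Type) [Finite V] (G : SimpleGraph V) (hG : G.Connected)
    (hE : ∃ x y, G.Adj x y) (hW : Woven G) : IsStar G ∨ IsSuitable G := by
  classical
  by_cases hT : G.IsTree
  · by_cases hV : 3 ≤ Nat.card V
    · have : Fintype V := Fintype.ofFinite V
      by_contra hcon
      push Not at hcon
      obtain ⟨a, b, K, hadm, hEmb⟩ := Pool.Agent.R489.Wov.tree_part G hT hE
        (by rw [← Nat.card_eq_fintype_card]; exact hV) hcon.1 hcon.2
      exact not_woven G a b K hadm hEmb hW
    · exact absurd hW (k2_not_woven G (by omega) hE)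
  · exact absurd hW (not_woven_of_not_tree G hG hT)

end Pool.Agent.Results.MP_85af01_co.Classification
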